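import Pool.Agent.H200M.Stm3
import Pool.Agent.H200W.All
import Pool.Agent.Q195.GR.Exp

set_option autoImplicit false

/-! Job MC13 (ExpM) of project MC (helper200). -/

namespace Pool.Agent.Q195.MC

open Finset Pool.Agent Pool.Agent.H200P Pool.Agent.H200W Pool.Agent.H932R3 Pool.Agent.W609.CR
open Pool.Agent.TH176.Nag Pool.Agent.TH603.Sur
open Pool.Agent.TH2.NU Pool.Agent.TH641.UM Pool.Agent.Y205.FW Pool.Agent.Y205.MD
open Pool.Agent.H200G Pool.Agent.H200M Pool.Agent.Q195.GR

lemma two_choose (m : ℕ) : 2 * (((m + 1).choose 2 : ℕ) : ℝ) = (m : ℝ) * (m + 1) := by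
  rw [Nat.cast_choose_two]
  push_cast
  ring

lemma two_condM {n : ℕ} (w : Fin n → ℕ) (A : Finset (Fin n)) :
    2 * (TH2.NU.condM (A.val.map w) : ℝ) = ∑ i ∈ A, (w i : ℝ) * (w i + 1) := by
  have h2 : TH2.NU.condM (A.val.map w) = ∑ i ∈ A, (w i + 1).choose 2 := by
    unfold TH2.NU.condM
    rw [Multiset.map_map]
    rfl
  rw [h2, Nat.cast_sum, Finset.mul_sum]
  exact Finset.sum_congr rfl fun i _ => two_choose (w i)

lemma xx_eq {n : ℕ} (w : Fin n → ℕ) (A : Finset (Fin n)) (d : ℕ) :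
    XX (A.val.map w) d = XA w A d := by
  unfold XX XA
  rw [two_condM]
  have h3 := p_card (M1 := 0) (M2 := 0) (M3 := 0) (d := d) le_rfl le_rfl (by omega)
  have h4 : 2 * ((HX 0 0 0 d).card : ℝ) = ((d : ℝ) + 1) * (d + 2) := by
    have h5 : 2 * (HX 0 0 0 d).card = (d + 1) * (d + 2) := by
      simpa using h3
    exact_mod_cast h5
  rw [h4]

lemma qG_map {n : ℕ} (G : ℝ) (w : Fin n → ℕ) (B : Finset (Fin n)) :
    qG G (B.val.map w) = ∑ i ∈ B, ((w i : ℝ) + 16 * G) ^ 2 := by
  unfold qG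
  rw [Multiset.map_map]
  rfl

lemma q0_map {n : ℕ} (w : Fin n → ℕ) (B : Finset (Fin n)) :
    q0 (B.val.map w) = ∑ i ∈ B, (w i : ℝ) ^ 2 := by
  unfold q0
  rw [Multiset.map_map]
  rfl

theorem expM : S_ExpM := by
  classical
  intro hK hR n d κ m1 h G η w A B hAB hW hG hm hη hη1 c1 c2 c3 c4
  obtain ⟨J, W, h1, h2, h3⟩ := groups hG
  apply hR (M := A.val.map w + B.val.map w + ∑ k ∈ J, W k)
  · rw [h3, Multiset.filter_add, Multiset.filter_add, filter_ne, filter_ne, filter_ne, filter_ne,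
      Finset.filter_filter, map_eq_sum, map_eq_sum, map_eq_sum, map_eq_sum, ← Finset.sum_union,
      ← Finset.sum_union]
    · apply Finset.sum_congr _ (fun _ _ => rfl)
      ext i
      simp only [Finset.mem_union, Finset.mem_filter, Finset.mem_sdiff, Finset.mem_univ, true_and]
      tauto
    · rw [Finset.disjoint_left]
      intro i hi hi'
      rw [Finset.mem_filter] at hi'
      rw [Finset.mem_sdiff] at hi'
      apply hi'.1.2
      rw [Finset.mem_union] at hi ⊢
      rcases hi with hi | hi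
      · exact Or.inl (Finset.mem_filter.1 hi).1
      · exact Or.inr (Finset.mem_filter.1 hi).1
    · rw [Finset.disjoint_left]
      intro i hi hi'
      rw [Finset.mem_filter] at hi hi'
      exact Finset.disjoint_left.1 hAB hi.1 hi'.1
  · apply hK (A.val.map w) (B.val.map w) J W (fun k hk => ⟨h1 k hk, h2 k hk⟩) hW hη hη1 c1 c2
    · intro m hm'
      rw [Multiset.mem_map] at hm'
      obtain ⟨i, hi, rfl⟩ := hm'
      exact hm i hi
    · rw [xx_eq]
      exact c3
    · rw [xx_eq, two_condM, qG_map, q0_map, ← Finset.sum_sub_distrib]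
      exact c4

end Pool.Agent.Q195.MC
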