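import Pool.Agent.H200M.Stm2
import Pool.Agent.Q162.GR.Regroup

/-! # Project MC: job REGI (adapted from the proof of Regroup of helper162) -/

set_option autoImplicit false

namespace Pool.Agent.Q195.MC

open Finset Pool.Agent Pool.Agent.TH176.Nag Pool.Agent.TH603.Sur Pool.Agent.TH2.NU
open Pool.Agent.TH641.UM Pool.Agent.Y205.FW Pool.Agent.Y205.MD Pool.Agent.H200W Pool.Agent.H200P
open Pool.Agent.H200G Pool.Agent.H200M Pool.Agent.Q162.GR

theorem itm_ir (hSlab : Slab) (hTrU : TrU) {h : ℝ} (hh : 256 ≤ h)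
    {p : List (ℕ × List (Multiset ℕ × ℝ × ℝ))}
    (hp : ∀ y ∈ p, (∀ x ∈ y.2, It (et y.1) x) ∧ 1024 * et y.1 ^ 2 ≤ tE y.2)
    (h2 : 2 * h ^ 2 ≤ (p.map fun x => tE x.2).sum) (h5 : (p.map fun x => tE x.2).sum ≤ 5 * h ^ 2) :
    Ir h (itm h p) := by
  classical
  set Jp : Finset ℕ := (p.map Prod.fst).toFinset with hJp
  have hmem : ∀ x ∈ p, x.1 ∈ Jp := fun x hx => by
    rw [hJp, List.mem_toFinset]
    exact List.mem_map_of_mem hx
  have hne : Jp.Nonempty := by
    by_contra hcon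
    rw [Finset.not_nonempty_iff_eq_empty] at hcon
    have h3 : p = [] := by
      by_contra hpn
      obtain ⟨x, hx⟩ := List.exists_mem_of_ne_nil p hpn
      have := hmem x hx
      rw [hcon] at this
      exact absurd this (Finset.notMem_empty _)
    rw [h3, List.map_nil, List.sum_nil] at h2
    have : 0 < h ^ 2 := by positivity
    linarith
  have hit : ∀ k ∈ Jp, ∀ x ∈ bd p k, It (et k) x := by
    intro k _ x hx
    obtain ⟨l, hl, hxl⟩ := mem_bd hx
    exact (hp (k, l) hl).1 x hxl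
  obtain ⟨hS, hE⟩ := hSlab Jp (bd p) (fun k hk x hx => by
    obtain ⟨i1, i2, i3, i4, i5, i6⟩ := hit k hk x hx
    exact ⟨i1, i2, i3, i5⟩) (fun k hk => by
    rw [hJp, List.mem_toFinset] at hk
    obtain ⟨y, hy, rfl⟩ := List.mem_map.1 hk
    refine (hp y hy).2.trans ?_
    exact tE_bd_ge (p := p) (k := y.1) (l := y.2) hy fun z hz x hx =>
      ((hp z hz).1 x hx).2.2.1)
  have hE := hE hne
  have eM : ∑ k ∈ Jp, tM (bd p k) = (p.map fun x => tM x.2).sum :=
    sum_part (fun x => x.1) Jp p hmem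
  have eS : ∑ k ∈ Jp, tS (bd p k) = (p.map fun x => tS x.2).sum :=
    sum_part (fun x => x.2.1) Jp p hmem
  have eE : ∑ k ∈ Jp, tE (bd p k) = (p.map fun x => tE x.2).sum :=
    sum_part (fun x => x.2.2) Jp p hmem
  rw [eM, eS] at hS
  rw [eM, eE] at hE
  have hcmp : ∀ l : List (Multiset ℕ × ℝ × ℝ), (∀ x ∈ l, x.2.2 ≤ x.2.1 ∧ x.2.1 ≤ 5 / 4 * x.2.2) →
      tE l ≤ tS l ∧ tS l ≤ 5 / 4 * tE l := by
    intro l hl
    unfold tE tS
    refine ⟨List.sum_le_sum fun x hx => (hl x hx).1, ?_⟩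
    rw [← List.sum_map_mul_left]
    exact List.sum_le_sum fun x hx => (hl x hx).2
  have hc : ∀ y ∈ p, tE y.2 ≤ tS y.2 ∧ tS y.2 ≤ 5 / 4 * tE y.2 := fun y hy =>
    hcmp y.2 fun x hx => ⟨((hp y hy).1 x hx).2.2.2.2.1, ((hp y hy).1 x hx).2.2.2.2.2⟩
  have c1 : (p.map fun x => tE x.2).sum ≤ (p.map fun x => tS x.2).sum :=
    List.sum_le_sum fun x hx => (hc x hx).1
  have c2 : (p.map fun x => tS x.2).sum ≤ 5 / 4 * (p.map fun x => tE x.2).sum := by
    rw [← List.sum_map_mul_left]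
    exact List.sum_le_sum fun x hx => (hc x hx).2
  have c3 : (p.map fun x => tS x.2).sum + 3 / 2 * h ≤ 7 * h ^ 2 := by nlinarith
  obtain ⟨u1, u2⟩ := hTrU (h := h) (by linarith) hS hE h2 c1 c3
  refine ⟨u1, u2, ?_, ?_, ?_, ?_⟩
  · change 0 ≤ (p.map fun x => tE x.2).sum
    nlinarith
  · change (p.map fun x => tE x.2).sum ≤ 768 * h ^ 2
    nlinarith
  · change (p.map fun x => tE x.2).sum ≤ (p.map fun x => tS x.2).sum + 3 / 2 * h
    linarith
  · change (p.map fun x => tS x.2).sum + 3 / 2 * h ≤ 4 / 3 * (p.map fun x => tE x.2).sum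
    nlinarith

/-- **Job MC-REGI.** -/
theorem regI : S_RegI := by
  intro hSlab hTrU hCutl J L h hh hIt hE hJh hsum
  -- the bundles
  have hP : ∀ k, ∃ P : List (List (Multiset ℕ × ℝ × ℝ)), k ∈ J → P.flatten = L k ∧
      ∀ l ∈ P, 1024 * et k ^ 2 ≤ tE l ∧ tE l ≤ 3 * (1024 * et k ^ 2) := by
    intro k
    by_cases hk : k ∈ J
    · have hpos : 0 < 1024 * et k ^ 2 := by
        have := et_pos k
        positivity
      obtain ⟨P, h1, h2⟩ := hCutl (fun x : Multiset ℕ × ℝ × ℝ => x.2.2) (1024 * et k ^ 2)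
        (1024 * et k ^ 2) (L k) hpos hpos.le (fun x hx => by
          obtain ⟨-, -, i3, i4, -, -⟩ := hIt k hk x hx
          exact ⟨i3, i4⟩) (hE k hk)
      refine ⟨P, fun _ => ⟨h1, fun l hl => ⟨(h2 l hl).1, ?_⟩⟩⟩
      have := (h2 l hl).2
      unfold tE
      linarith
    · exact ⟨[], fun h => absurd h hk⟩
  choose P hP using hP
  have hne : J.Nonempty := by
    by_contra hcon
    rw [Finset.not_nonempty_iff_eq_empty] at hcon
    rw [hcon, Finset.sum_empty] at hsum
    have : 0 < h ^ 2 := by positivity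
    linarith
  have hh256 : 256 ≤ h := by
    obtain ⟨k, hk⟩ := hne
    have h1 := hJh k hk
    have h2 := et_ge k
    linarith
  have hbl : ∀ y ∈ bl P J, (∀ x ∈ y.2, It (et y.1) x) ∧ 1024 * et y.1 ^ 2 ≤ tE y.2 ∧
      tE y.2 ≤ h ^ 2 := by
    intro y hy
    obtain ⟨hy1, hy2⟩ := mem_bl hy
    obtain ⟨hf, hl⟩ := hP y.1 hy1
    refine ⟨fun x hx => hIt y.1 hy1 x ?_, (hl y.2 hy2).1, (hl y.2 hy2).2.trans ?_⟩
    · rw [← hf]
      exact List.mem_flatten.2 ⟨y.2, hy2, hx⟩
    · have h1 := hJh y.1 hy1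
      have h2 := et_pos y.1
      nlinarith
  have hMt : ((bl P J).map fun y => tM y.2).sum = ∑ k ∈ J, tM (L k) := by
    have h1 := sum_bl (fun x => x.1) P J
    refine Eq.trans h1 (Finset.sum_congr rfl fun k hk => ?_)
    rw [(hP k hk).1]
    rfl
  have hSt : ((bl P J).map fun y => tS y.2).sum = ∑ k ∈ J, tS (L k) := by
    have h1 := sum_bl (fun x => x.2.1) P J
    refine Eq.trans h1 (Finset.sum_congr rfl fun k hk => ?_)
    rw [(hP k hk).1]
    rfl
  have hEt : ((bl P J).map fun y => tE y.2).sum = ∑ k ∈ J, tE (L k) := by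
    have h1 := sum_bl (fun x => x.2.2) P J
    refine Eq.trans h1 (Finset.sum_congr rfl fun k hk => ?_)
    rw [(hP k hk).1]
    rfl
  -- the parts
  have hh2 : 0 < h ^ 2 := by positivity
  obtain ⟨PP, hPP, hPPl⟩ := hCutl (fun y : ℕ × List (Multiset ℕ × ℝ × ℝ) => tE y.2) (2 * h ^ 2)
    (h ^ 2) (bl P J) (by linarith) hh2.le (fun y hy => by
      obtain ⟨h1, h2, h3⟩ := hbl y hy
      refine ⟨?_, h3⟩
      refine le_trans ?_ h2
      positivity) (by rw [hEt]; exact hsum)
  have hmemPP : ∀ p ∈ PP, ∀ y ∈ p, y ∈ bl P J := by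
    intro p hp y hy
    rw [← hPP]
    exact List.mem_flatten.2 ⟨p, hp, hy⟩
  refine ⟨PP.map (itm h), ?_, ?_, ?_, ?_⟩
  · intro x hx
    obtain ⟨p, hp, rfl⟩ := List.mem_map.1 hx
    refine itm_ir hSlab hTrU hh256 (fun y hy => ?_) (hPPl p hp).1 ?_
    · obtain ⟨h1, h2, -⟩ := hbl y (hmemPP p hp y hy)
      exact ⟨h1, h2⟩
    · have := (hPPl p hp).2
      linarith
  · rw [← hMt, ← hPP, sum_flat]
    unfold tM
    rw [List.map_map]
    rfl
  · have h1 : tS (PP.map (itm h)) = ((bl P J).map fun y => tS y.2).sum +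
        3 / 2 * h * PP.length := by
      rw [← hPP, sum_flat]
      unfold tS
      rw [List.map_map]
      have h2 : ∀ Q : List (List (ℕ × List (Multiset ℕ × ℝ × ℝ))),
          (Q.map ((fun x : Multiset ℕ × ℝ × ℝ => x.2.1) ∘ itm h)).sum =
          (Q.map fun l => (l.map fun y => ((y.2.map fun x => x.2.1).sum)).sum).sum +
            3 / 2 * h * Q.length := by
        intro Q
        induction Q with
        | nil => simp
        | cons p Q ih =>
          rw [List.map_cons, List.sum_cons, ih, List.map_cons, List.sum_cons, List.length_cons]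
          change ((p.map fun x => tS x.2).sum + 3 / 2 * h) + _ = _
          unfold tS
          push_cast
          ring
      exact h2 PP
    rw [h1, hSt]
    have h3 : 2 * h ^ 2 * PP.length ≤ ∑ k ∈ J, tE (L k) := by
      rw [← hEt, ← hPP, sum_flat]
      have h4 : ∀ Q : List (List (ℕ × List (Multiset ℕ × ℝ × ℝ))),
          (∀ p ∈ Q, 2 * h ^ 2 ≤ (p.map fun y => tE y.2).sum) →
          2 * h ^ 2 * Q.length ≤ (Q.map fun l => (l.map fun y => tE y.2).sum).sum := by
        intro Q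
        induction Q with
        | nil => intro _; simp
        | cons p Q ih =>
          intro hQ
          rw [List.map_cons, List.sum_cons, List.length_cons]
          have e1 := hQ p List.mem_cons_self
          have e2 := ih fun p hp => hQ p (List.mem_cons_of_mem _ hp)
          push_cast
          linarith
      exact h4 PP fun p hp => (hPPl p hp).1
    have h5 : 3 / 2 * h * PP.length ≤ 3 / 4 * (∑ k ∈ J, tE (L k)) / h := by
      rw [le_div_iff₀ (by linarith)]
      nlinarith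
    linarith
  · rw [← hEt, ← hPP, sum_flat]
    unfold tE
    rw [List.map_map]
    rfl

end Pool.Agent.Q195.MC
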